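import Pool.Agent.Helper56_MG.Base3
import Pool.Agent.Helper56_MG.Stmts2

/-!
# Squad MG, modules JNEW and JNDOM
-/

open Set

namespace Pool.Agent.MG.H32

open Pool.Agent.MG
open Pool.Agent.FL (Ix)

theorem s_le_te (k : Ix) : JJ.s k ≤ te := (JJ.s_lt_t).le

theorem m_le_te (k : Ix) : JJ.m k ≤ te := (JJ.m_lt_t).le

/-- JNEW. -/
theorem jnew (hNew : NewStmt JJ) (hBnd : BndStmt) : JNewStmt := by
  classical
  intro q ρ T hρ hT hd hF hG
  obtain ⟨-, h2, h3, -, -, -⟩ := hBnd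
  obtain ⟨k, hk⟩ := h3 T ⟨hT, hd.mono hρ⟩
  obtain ⟨k', hk'⟩ := h2 q.1 q.2.below
  have hkl : JJ.s k ≤ JJ.s (max k k') := by
    rw [← not_lt, JJ.s_lt_s, not_lt]
    exact le_max_left _ _
  have hkl' : JJ.s k' ≤ JJ.s (max k k') := by
    rw [← not_lt, JJ.s_lt_s, not_lt]
    exact le_max_right _ _
  have hTd : Dep (min ρ (JJ.s (max k k'))) T := by
    rcases le_total ρ (JJ.s (max k k')) with h | h
    · rw [min_eq_left h]; exact hd
    · rw [min_eq_right h]; exact hk.mono hkl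
  obtain ⟨q2, hle, hV, hq2⟩ := hNew (JJ.s k') (JJ.s (max k k')) (min ρ (JJ.s (max k k'))) rfl hkl'
    (min_le_right _ _) q.1 (q.2.of_below hk') T hT hTd
    (hF.lower (min_le_left _ _) (fun y y' h => congrArg bS (hTd y y' h))) hG
  exact ⟨⟨q2, hV.mono (m_le_te _)⟩, hle, max k k', hq2⟩

/-- JNDOM. -/
theorem jndom (hBnd : BndStmt) (hCount : CountStmt) (hThin : ThinmStmt) : JNDomStmt := by
  classical
  intro ι hι rel hrel e he
  obtain ⟨-, h2, -, h4, h5, h6⟩ := hBnd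
  -- the choice
  have hch : ∀ (i : ι) (r : PP), ∃ (r' : PP) (f : PJ → ℕ → ℕ) (k : Ix), r ≤ e →
      r' ≤ r ∧ Nm f ∧ rel i r' f ∧ r'.1.Below (JJ.s k) ∧ Dep (JJ.s k) f := by
    intro i r
    by_cases hr : r ≤ e
    · obtain ⟨r', hr', f, hf, hR⟩ := he i r hr
      obtain ⟨k1, hk1⟩ := h2 r'.1 r'.2.below
      obtain ⟨k2, hk2⟩ := h4 f hf
      have hk1' : JJ.s k1 ≤ JJ.s (max k1 k2) := by
        rw [← not_lt, JJ.s_lt_s, not_lt]
        exact le_max_left _ _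
      have hk2' : JJ.s k2 ≤ JJ.s (max k1 k2) := by
        rw [← not_lt, JJ.s_lt_s, not_lt]
        exact le_max_right _ _
      exact ⟨r', f, max k1 k2, fun _ => ⟨hr', hf, hR, hk1.mono hk1', hk2.mono hk2'⟩⟩
    · exact ⟨r, fun _ _ => 0, ixb, fun h => (hr h).elim⟩
  choose R F K hRFK using hch
  -- the bounds
  have hg : ∀ β : Ix, ∃ b : Ix, ∀ (i : ι) (r : PP), r.1.Below (JJ.s β) → K i r < b := by
    intro β
    have hcard : Cardinal.mk (ι × {r : Cond JJ // r.Below (JJ.s β)}) ≤ Cardinal.continuum := by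
      rw [Cardinal.mk_prod, Cardinal.lift_id, Cardinal.lift_id]
      calc Cardinal.mk ι * Cardinal.mk {r : Cond JJ // r.Below (JJ.s β)}
          ≤ Cardinal.continuum * Cardinal.continuum := mul_le_mul' hι (hCount β).1
        _ = Cardinal.continuum := Cardinal.continuum_mul_self
    obtain ⟨b, hb⟩ := h5 _ hcard fun z => if h : VB te z.2.1 then K z.1 ⟨z.2.1, h⟩ else ixb
    refine ⟨b, fun i r hr => ?_⟩
    have := hb (i, ⟨r.1, hr⟩)
    simp only [r.2, dif_pos] at this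
    exact this
  choose g hg using hg
  obtain ⟨β0, hβ0⟩ := h2 e.1 e.2.below
  obtain ⟨γ, hγ0, hγg, hγr, -⟩ := h6 g β0
  refine ⟨γ, fun i r hr m => ?_⟩
  obtain ⟨β, hβ, hβr⟩ := hγr (r.1.restr (JJ.s γ)) (Cond.restr_below _ _)
  have heγ : e.1.restr (JJ.s γ) = e.1 := (hβ0.mono (JJ.s_lt_s.2 hγ0).le).restr_eq
  let r0 : PP := ⟨r.1.restr (JJ.s γ), (r.2.restr (JJ.s γ)).mono (s_le_te γ)⟩
  have hr0 : r0 ≤ e := by
    show r.1.restr (JJ.s γ) ≤ e.1
    rw [← heγ]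
    exact Cond.restr_mono hr _
  obtain ⟨h7, h8, h9, h10, h11⟩ := hRFK i r0 hr0
  have hKγ : K i r0 < γ := (hg β i r0 hβr).trans (hγg β hβ)
  have hsK : JJ.s (K i r0) ≤ JJ.s γ := (JJ.s_lt_s.2 hKγ).le
  have hRγ : (R i r0).1.Below (JJ.s γ) := h10.mono hsK
  have hle : (R i r0).1.restr (JJ.s γ) ≤ r.1.restr (JJ.s γ) := by
    rw [hRγ.restr_eq]
    exact h7
  let r2 : PP := ⟨Cond.glue (R i r0).1 r.1 (JJ.s γ), VB.glue (R i r0).2 r.2 (s_le_te γ) hle⟩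
  have hr2 : r2 ≤ r := Cond.glue_le_right hle
  have hr2' : r2 ≤ R i r0 := Cond.glue_le_left hRγ
  obtain ⟨q, hq, n, hn, hz⟩ := hThin γ r2 (F i r0) h8.1
    (h11.mono (hsK.trans (JJ.s_lt_m.2 le_rfl).le)) (Set.Ici m) (Set.Ici_infinite m)
  exact ⟨q, hq.trans hr2, F i r0, h8, hrel i _ _ _ (hq.trans hr2') h9, n, hn, hz⟩

end Pool.Agent.MG.H32
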