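import Pool.Agent.Helper56_MG.Base3
import Pool.Agent.Helper56_MG.Stmts2

/-!
# Squad MG, module JNP: the product is not Menger
-/

open Set

namespace Pool.Agent.MG.H32

open Pool.Agent.MG
open Pool.Agent.FL (Ix)
open Pool.Agent.Men (iv iv2)

/-- Number of differences of two nodes. -/
def ndf (a b : Node) : ℕ := ((a.zip b).filter (fun z => xor z.1 z.2)).length

theorem ndf_pre (x y : R) (L : ℕ) :
    ndf (pre x L) (pre (sm x y) L) = Nat.count (fun k => y k = true) L := by
  induction L with
  | zero => simp [ndf, pre]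
  | succ L ih =>
    rw [pre_succ, pre_succ, Nat.count_succ, ← ih]
    unfold ndf
    rw [List.zip_append (by simp), List.filter_append, List.length_append]
    congr 1
    have : xor (x L) (sm x y L) = y L := by
      simp [sm]
    by_cases h : y L = true
    · simp [this, h]
    · simp [this, h]

/-- JNP. -/
theorem jnp (hEr : ErStmt) (hInfo : InfoStmt) (hDom : JDomStmt) : JNProdStmt := by
  classical
  obtain ⟨-, -, -, ⟨w, hw⟩, ⟨a0, ha0⟩, -⟩ := hEr
  -- the covers
  let dec : ℕ → Node × Node := fun c => (Encodable.decode (α := Node × Node) c).getD ([], [])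
  have hdec : ∀ z : Node × Node, dec (Encodable.encode z) = z := by
    intro z
    simp only [dec, Encodable.encodek, Option.getD_some]
  let cc : ℕ → ℕ := fun m =>
    if (dec m.unpair.2.unpair.1).1.length = m.unpair.2.unpair.2 ∧
        (dec m.unpair.2.unpair.1).2.length = m.unpair.2.unpair.2 ∧
        m.unpair.1 < ndf (dec m.unpair.2.unpair.1).1 (dec m.unpair.2.unpair.1).2 then
      Nat.pair (w (dec m.unpair.2.unpair.1).1) (w (dec m.unpair.2.unpair.1).2)
    else Nat.pair a0 a0
  refine ⟨cc, ?_, ?_⟩
  · rintro ⟨k, F⟩ j r n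
    obtain ⟨r', hr', a, b, hab, hn, hz⟩ := hInfo k F j r n
    refine ⟨r', hr', Nat.pair (Encodable.encode (a, b)) a.length, fun z hz' => ?_⟩
    obtain ⟨h1, h2⟩ := hz z hz'
    have hcc : cc (Nat.pair n (Nat.pair (Encodable.encode (a, b)) a.length)) =
        Nat.pair (w a) (w b) := by
      simp only [cc, Nat.unpair_pair, hdec]
      rw [if_pos ⟨trivial, hab.symm, hn⟩]
    rw [hcc, iv2, Nat.unpair_pair]
    refine ⟨(hw a _).2 h1, ?_⟩
    unfold fY
    by_cases hj : j.1 = true
    · rw [if_pos hj]
      rw [if_pos hj] at h2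
      exact (hw b _).2 h2
    · rw [if_neg hj]
      rw [if_neg hj] at h2
      exact (hw b _).2 h2
  · intro h hh r
    obtain ⟨r', hr', b, -, hz⟩ := hDom (fun y n => h y n + 1)
      ⟨measurable_pi_iff.2 fun n => ((measurable_pi_iff.1 hh.1 n).add_const 1),
        fun y y' h' => by simp only [hh.2 y y' h']⟩ r ixb
    refine ⟨r', hr', (b, ∅), (false, b, ∅), fun z hz' n k hk hmem => ?_⟩
    obtain ⟨hinf, hel⟩ := hz z hz'
    by_cases hc : (dec k.unpair.1).1.length = k.unpair.2 ∧
        (dec k.unpair.1).2.length = k.unpair.2 ∧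
        n < ndf (dec k.unpair.1).1 (dec k.unpair.1).2
    · have hcc : cc (Nat.pair n k) =
          Nat.pair (w (dec k.unpair.1).1) (w (dec k.unpair.1).2) := by
        simp only [cc, Nat.unpair_pair]
        rw [if_pos hc]
      rw [hcc, iv2, Nat.unpair_pair] at hmem
      obtain ⟨h1, h2⟩ := hmem
      simp only [fX, fY, Bool.false_eq_true, if_false] at h1 h2
      have hchg : ∀ x : R, chg x ∅ = x := by
        intro x
        funext n
        simp [chg]
      rw [hchg] at h1 h2
      have h3 := (hw _ _).1 h1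
      have h4 := (hw _ _).1 h2
      obtain ⟨hl1, hl2, hn⟩ := hc
      unfold On at h3 h4
      rw [hl1] at h3
      rw [hl2] at h4
      rw [← h3, ← h4, ndf_pre] at hn
      have h5 : el (z (JJ.m b)) n < k.unpair.2 := Nat.nth_lt_of_lt_count hn
      have h6 : h z n + 1 ≤ el (z (JJ.m b)) n := hel n
      have h7 := Nat.unpair_right_le k
      omega
    · have hcc : cc (Nat.pair n k) = Nat.pair a0 a0 := by
        simp only [cc, Nat.unpair_pair]
        rw [if_neg hc]
      rw [hcc, iv2, Nat.unpair_pair] at hmem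
      have := hmem.1
      simp only [ha0] at this
      exact this

end Pool.Agent.MG.H32
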